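import Pool.Agent.H.MP_ca0bb9_al.A

namespace Pool.Agent.Results.MP_ca0bb9_al.Finite

open Pool.Agent.H.MP_ca0bb9_al

/-- closure of the subgroup generated by all closed non-normal subgroups -/
def STilde (G : Type) [Group G] [TopologicalSpace G] [IsTopologicalGroup G] : Subgroup G :=
  (sSup {L : Subgroup G | IsClosed (L : Set G) ∧ ¬ L.Normal}).topologicalClosure

theorem result (p : ℕ) (hp : p.Prime) (G : Type) [Group G] [TopologicalSpace G]
    [IsTopologicalGroup G] [CompactSpace G] [T2Space G] [TotallyDisconnectedSpace G]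
    (hP : ∀ N : OpenNormalSubgroup G, IsPGroup p (G ⧸ (N : Subgroup G)))
    (hS : STilde G ≠ ⊤) :
    ∃ n : ℕ, Nonempty ((commutator G).topologicalClosure ≃* Multiplicative (ZMod (p ^ n))) := by
  refine main hp hP (STilde G) hS fun x hx => ?_
  by_contra hn
  exact hx (Subgroup.le_topologicalClosure _ (le_sSup (s := {L : Subgroup G |
    IsClosed (L : Set G) ∧ ¬ L.Normal}) ⟨Subgroup.isClosed_topologicalClosure _, hn⟩
    (Subgroup.le_topologicalClosure _ (Subgroup.mem_zpowers x))))

end Pool.Agent.Results.MP_ca0bb9_al.Finite
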